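import Mathlib
import Pool.Agent.Helper310_Saxl.Defs
import Pool.Agent.Helper310_SaxlA.DefsA
import Pool.Agent.Helper310_SaxlA.Final

/-!
# The tensor square of the family of a self-dual minimal solvable orbit, all classical types

The definitions used in the statement are in `Pool.Agent.Helper310_Saxl.Defs` (types B, C, D) and
`Pool.Agent.Helper310_SaxlA.DefsA` (type A).
-/

namespace Pool.Agent.Results.MP_5e2a31_al.Full

open Pool.Agent.Helper310_Saxl Pool.Agent.Helper310_SaxlA

/-- Let `l` be the minimal solvable nilpotent orbit of a simple Lie algebra of classical type with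
Weyl group `W`, suppose that `d(l) = l`, and let `F` be the family of the orbit `l`.

* Type A: `F` consists of the irreducible representation `ρ` labelled by `l`, and `ρ ⊗ ρ` contains
  every irreducible representation of `W`. This is Saxl's conjecture, because `l` is a staircase
  `(k, k - 1, ..., 2, 1)`.
* Types B, C, D: if `ρ` contains all irreducible representations in `F` (for example, `ρ` is
  their sum `ρ_F`), then `ρ ⊗ ρ` contains every irreducible representation of `W`. -/
theorem result.{u, v} :
    (∀ (n : ℕ) (l : ℕ → ℕ), IsMinSolvableA n l → IsDualA n l l →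
      ∀ (M : Type u) [AddCommGroup M] [Module ℂ M]
        (ρ : Representation ℂ (Equiv.Perm (Fin n)) M), ρ.IsIrreducible → HasLabA ρ l →
      ∀ (U : Type v) [AddCommGroup U] [Module ℂ U]
        (σ : Representation ℂ (Equiv.Perm (Fin n)) U), σ.IsIrreducible →
        Contains (ρ.tprod ρ) σ) ∧
    (∀ (T : Ty) (n : ℕ) (l : ℕ → ℕ), IsMinSolvable T n l → IsDual T n l l →
      ∀ (M : Type u) [AddCommGroup M] [Module ℂ M]
        (ρ : Representation ℂ (Weyl T n) M), ContainsFamily T n l ρ →
      ∀ (U : Type v) [AddCommGroup U] [Module ℂ U]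
        (σ : Representation ℂ (Weyl T n) U), σ.IsIrreducible → Contains (ρ.tprod ρ) σ) := by
  refine ⟨?_, ?_⟩
  · intro n l hmin hdual M _ _ ρ hρ hlab U _ _ σ hσ
    exact typeA n l hmin hdual ρ hρ hlab σ hσ
  · intro T n l hmin hdual M _ _ ρ hρ U _ _ σ hσ
    exact typesBCD T n l hmin hdual ρ hρ σ hσ

end Pool.Agent.Results.MP_5e2a31_al.Full
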